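import Pool.Agent.Helper69.MWF.Stmts

/-!
# MP_80e84b_lc (S14965), module CCC: disjoint Borel sets, only countably many are nonmeager
-/

set_option autoImplicit false

open Topology Set Filter TopologicalSpace

namespace Pool.Agent.Helper59.MWF

open Pool.Agent.Helper69.MWF

/-- a nonmeager Borel set is comeager in some member of the countable basis -/
theorem basis_of_not {Z : Set (ℕ → ℕ)} (hZ : MeasurableSet Z) (h : ¬ IsMeagre Z) :
    ∃ V ∈ countableBasis (ℕ → ℕ), V.Nonempty ∧ IsMeagre (V \ Z) := by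
  obtain ⟨u, hu, hZu⟩ := hZ.residualEq_isOpen
  have hne : u.Nonempty := by
    by_contra hc
    rw [not_nonempty_iff_eq_empty] at hc
    subst hc
    refine h ?_
    have : Zᶜ ∈ residual (ℕ → ℕ) := by
      filter_upwards [hZu] with x hx hxZ
      have h1 : (∅ : Set (ℕ → ℕ)) x := by
        rw [← hx]
        exact hxZ
      exact h1
    exact this
  obtain ⟨x, hx⟩ := hne
  obtain ⟨V, hV, hxV, hVu⟩ := (isBasis_countableBasis (ℕ → ℕ)).exists_subset_of_mem_open hx hu
  refine ⟨V, hV, ⟨x, hxV⟩, ?_⟩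
  have : (V \ Z)ᶜ ∈ residual (ℕ → ℕ) := by
    filter_upwards [hZu] with y hy hyV
    apply hyV.2
    have h1 : u y := hVu hyV.1
    rw [← hy] at h1
    exact h1
  exact this

theorem countable_not {Z : (ℕ → Bool) → Set (ℕ → ℕ)} (hZ : ∀ k, MeasurableSet (Z k))
    (hd : ∀ k k', k ≠ k' → Disjoint (Z k) (Z k')) : {k | ¬ IsMeagre (Z k)}.Countable := by
  have h : ∀ k : {k | ¬ IsMeagre (Z k)}, ∃ V ∈ countableBasis (ℕ → ℕ), V.Nonempty ∧
      IsMeagre (V \ Z k.1) := fun k => basis_of_not (hZ k.1) k.2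
  choose V hV hVn hVm using h
  have hinj : Function.Injective (fun k => (⟨V k, hV k⟩ : countableBasis (ℕ → ℕ))) := by
    intro k k' hkk
    have e : V k = V k' := congrArg Subtype.val hkk
    by_contra hne
    have hne' : k.1 ≠ k'.1 := fun h => hne (Subtype.ext h)
    have h1 : IsMeagre (V k) := by
      refine ((hVm k).union (hVm k')).mono ?_
      intro x hx
      by_cases hxk : x ∈ Z k.1
      · refine Or.inr ⟨by rw [← e]; exact hx, fun hx' => ?_⟩
        exact (Set.disjoint_left.1 (hd _ _ hne')) hxk hx'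
      · exact Or.inl ⟨hx, hxk⟩
    have h2 : (V k)ᶜ ∈ residual (ℕ → ℕ) := h1
    have h3 := (dense_of_mem_residual h2).inter_open_nonempty (V k)
      ((isBasis_countableBasis (ℕ → ℕ)).isOpen (hV k)) (hVn k)
    obtain ⟨x, hx1, hx2⟩ := h3
    exact hx2 hx1
  have hc : Countable {k | ¬ IsMeagre (Z k)} := by
    have : Countable (countableBasis (ℕ → ℕ)) := (countable_countableBasis (ℕ → ℕ)).to_subtype
    exact hinj.countable
  exact Set.countable_coe_iff.1 hc

theorem st_CCC : ST_CCC := by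
  intro Z hZ hd
  have h1 : (⋃ j, {k | ¬ IsMeagre (Z j k)}).Countable :=
    Set.countable_iUnion fun j => countable_not (hZ j) (hd j)
  have h2 : ¬ (Set.univ : Set (ℕ → Bool)).Countable := by
    rw [Set.countable_univ_iff]
    intro hc
    obtain ⟨f, hf⟩ := exists_surjective_nat (ℕ → Bool)
    obtain ⟨n, hn⟩ := hf (fun n => !(f n n))
    have h3 := congrFun hn n
    simp at h3
  by_contra hne
  push Not at hne
  refine h2 (h1.mono ?_)
  intro k _
  obtain ⟨j, hj⟩ := hne k
  exact Set.mem_iUnion.2 ⟨j, hj⟩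

end Pool.Agent.Helper59.MWF
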