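import Pool.Agent.Helper69.MWF.BasicC

/-!
# MP_80e84b_lc (S14965): xor is primitive recursive
-/

set_option autoImplicit false

namespace Pool.Agent.Helper59.MWF

open Pool.Agent.Helper95.MW Pool.Agent.Helper69.MWF

theorem primrec_pow2 : Primrec (fun k : ℕ => 2 ^ k) := by
  have h : Primrec (fun k : ℕ => Nat.rec (motive := fun _ => ℕ) 1 (fun _ r => r * 2) k) := by
    refine Primrec.nat_rec' (f := fun k : ℕ => k) (g := fun _ => 1) (h := fun _ p => p.2 * 2)
      Primrec.id (Primrec.const 1) ?_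
    exact Primrec.nat_mul.comp (Primrec.snd.comp Primrec.snd) (Primrec.const 2)
  refine h.of_eq fun k => ?_
  induction k with
  | zero => rfl
  | succ k ih => rw [pow_succ, ← ih]

/-- the last `k` binary digits of `a xor b` -/
def xk (a b : ℕ) : ℕ → ℕ
  | 0 => 0
  | k + 1 => xk a b k + 2 ^ k * ((a / 2 ^ k + b / 2 ^ k) % 2)

theorem xk_eq (a b k : ℕ) : xk a b k = (a ^^^ b) % 2 ^ k := by
  induction k with
  | zero => simp [xk, Nat.mod_one]
  | succ k ih =>
    have h1 : (a ^^^ b) % 2 ^ (k + 1) = (a ^^^ b) % 2 ^ k + 2 ^ k * ((a ^^^ b) / 2 ^ k % 2) := by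
      rw [pow_succ, Nat.mod_mul]
    have h2 : (a ^^^ b) / 2 ^ k % 2 = (a / 2 ^ k + b / 2 ^ k) % 2 := by
      rw [Nat.xor_div_two_pow, Nat.xor_mod_two_eq]
    rw [h1, h2, ← ih]
    rfl

theorem xor_eq (a b : ℕ) : xk a b (a + b) = a ^^^ b := by
  rw [xk_eq]
  refine Nat.mod_eq_of_lt (Nat.xor_lt_two_pow ?_ ?_)
  · exact lt_of_lt_of_le Nat.lt_two_pow_self (Nat.pow_le_pow_right (by norm_num) (Nat.le_add_right a b))
  · exact lt_of_lt_of_le Nat.lt_two_pow_self (Nat.pow_le_pow_right (by norm_num) (Nat.le_add_left b a))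

theorem primrec_xor : Primrec₂ (fun a b : ℕ => a ^^^ b) := by
  have h : Primrec (fun v : ℕ × ℕ => Nat.rec (motive := fun _ => ℕ) 0
      (fun k r => r + 2 ^ k * ((v.1 / 2 ^ k + v.2 / 2 ^ k) % 2)) (v.1 + v.2)) := by
    refine Primrec.nat_rec' (f := fun v : ℕ × ℕ => v.1 + v.2) (g := fun _ => 0)
      (h := fun v p => p.2 + 2 ^ p.1 * ((v.1 / 2 ^ p.1 + v.2 / 2 ^ p.1) % 2))
      (Primrec.nat_add.comp Primrec.fst Primrec.snd) (Primrec.const 0) ?_
    have hk : Primrec (fun p : (ℕ × ℕ) × ℕ × ℕ => 2 ^ p.2.1) :=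
      primrec_pow2.comp (Primrec.fst.comp Primrec.snd)
    refine Primrec.nat_add.comp (Primrec.snd.comp Primrec.snd) (Primrec.nat_mul.comp hk ?_)
    refine Primrec.nat_mod.comp (Primrec.nat_add.comp ?_ ?_) (Primrec.const 2)
    · exact Primrec.nat_div.comp (Primrec.fst.comp Primrec.fst) hk
    · exact Primrec.nat_div.comp (Primrec.snd.comp Primrec.fst) hk
  refine h.of_eq fun v => ?_
  obtain ⟨a, b⟩ := v
  change _ = a ^^^ b
  rw [← xor_eq]
  generalize a + b = n
  induction n with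
  | zero => rfl
  | succ n ih =>
    change _ + _ = _ + _
    rw [ih]

theorem xr_le (f g : ℕ → ℕ) : LE (xr f g) (jn f g) := by
  have h1 : Nat.Primrec (fun n : ℕ => n.unpair.1 ^^^ n.unpair.2) :=
    Primrec.nat_iff.1 (primrec_xor.comp (Primrec.fst.comp Primrec.unpair)
      (Primrec.snd.comp Primrec.unpair))
  have h2 := rt_comp (rt_prim (w := jn f g) h1) (rt_oracle (jn f g))
  have e : (fun n => (jn f g n).unpair.1 ^^^ (jn f g n).unpair.2) = xr f g := by
    funext n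
    unfold jn xr
    rw [Nat.unpair_pair]
  rw [e] at h2
  exact le_iff.2 h2

end Pool.Agent.Helper59.MWF
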