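import Pool.Agent.Helper69.MWF.Stmts
import Pool.Agent.Helper59.MWF.Xor

/-!
# MP_80e84b_lc (S14965), module D1: `B_{p'}` is c.e. in `π z` if `A` is c.e. in `z`
-/

set_option autoImplicit false

open Topology Set Filter TopologicalSpace
open Nat.Partrec (Code)

namespace Pool.Agent.Helper59.MWF

open Pool.Agent.Helper95.MW Pool.Agent.Helper69.MWF

theorem isOpen_Cy (f : ℕ → ℕ) (n : ℕ) : IsOpen (Cy f n) := by
  have e : Cy f n = ⋂ i ∈ Set.Iio n, {x : ℕ → ℕ | x i = f i} := by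
    ext x
    simp [Cy]
  rw [e]
  refine (Set.finite_Iio n).isOpen_biInter fun i _ => ?_
  have h : IsOpen ((fun x : ℕ → ℕ => x i) ⁻¹' {f i}) :=
    (isOpen_discrete ({f i} : Set ℕ)).preimage (continuous_apply i)
  exact h

theorem Cy_self (f : ℕ → ℕ) (n : ℕ) : f ∈ Cy f n := fun _ _ => rfl

theorem Cy_mono {f x : ℕ → ℕ} {m n : ℕ} (h : m ≤ n) (hx : x ∈ Cy f n) : x ∈ Cy f m :=
  fun i hi => hx i (lt_of_lt_of_le hi h)

theorem Cy_trans {f g x : ℕ → ℕ} {m n : ℕ} (h : m ≤ n) (hx : x ∈ Cy g n) (hg : g ∈ Cy f m) :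
    x ∈ Cy f m := fun i hi => (hx i (lt_of_lt_of_le hi h)).trans (hg i hi)

theorem Cy_symm {f x : ℕ → ℕ} {n : ℕ} (h : x ∈ Cy f n) : f ∈ Cy x n := fun i hi => (h i hi).symm

theorem pick2 {R : Set ((ℕ → ℕ) × (ℕ → ℕ))} (hR : R ∈ residual ((ℕ → ℕ) × (ℕ → ℕ)))
    (k g : ℕ → ℕ) (m n : ℕ) : ∃ k' g', (k', g') ∈ R ∧ k' ∈ Cy k m ∧ g' ∈ Cy g n := by
  obtain ⟨⟨k', g'⟩, ⟨h1, h2⟩, h3⟩ := (dense_of_mem_residual hR).inter_open_nonempty
    (Cy k m ×ˢ Cy g n) ((isOpen_Cy k m).prod (isOpen_Cy g n)) ⟨(k, g), Cy_self k m, Cy_self g n⟩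
  exact ⟨k', g', h3, h1, h2⟩

theorem ini_of_Cy {f x : ℕ → ℕ} {n : ℕ} (h : x ∈ Cy f n) : ini x n = ini f n :=
  ini_eq_of_agree h

theorem jn_Cy {f g x y : ℕ → ℕ} {n : ℕ} (h1 : x ∈ Cy f n) (h2 : y ∈ Cy g n) :
    jn x y ∈ Cy (jn f g) n := fun i hi => by
  unfold jn
  rw [h1 i hi, h2 i hi]

theorem mem_segs_of_Cy {x y : ℕ → ℕ} {m s : ℕ} (h : x ∈ Cy y s) (hm : m = ec (ini y s)) :
    m ∈ segs x := ⟨s, by rw [hm, ini_of_Cy h]⟩

theorem piJoin {π : (ℕ → ℕ) → (ℕ → ℕ)} (h : PiAut π) (f g : ℕ → ℕ) :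
    LE (π (jn f g)) (jn (π f) (π g)) := by
  obtain ⟨u, h1, h2⟩ := h.surj (jn (π f) (π g))
  have h3 : LE f u := (h.iff _ _).2 ((le_jn_left _ _).trans h2)
  have h4 : LE g u := (h.iff _ _).2 ((le_jn_right _ _).trans h2)
  exact ((h.iff _ _).1 (jn_le h3 h4)).trans h1

theorem jn_mono {f g f' g' : ℕ → ℕ} (h1 : LE f f') (h2 : LE g g') : LE (jn f g) (jn f' g') :=
  jn_le (h1.trans (le_jn_left _ _)) (h2.trans (le_jn_right _ _))

theorem comp_le {e g w : ℕ → ℕ} (h1 : LE e w) (h2 : LE g w) : LE (e ∘ g) w :=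
  le_iff.2 (rt_comp (G := e) (g := g) (le_iff.1 h1) (le_iff.1 h2))

theorem measurable_xr (e : ℕ → ℕ) :
    Measurable (fun p : (ℕ → ℕ) × (ℕ → ℕ) => xr p.1 (e ∘ p.2)) := by
  have hc : Continuous (fun p : (ℕ → ℕ) × (ℕ → ℕ) => xr p.1 (e ∘ p.2)) := by
    refine continuous_pi fun i => ?_
    have h1 : Continuous (fun p : (ℕ → ℕ) × (ℕ → ℕ) => (p.1 i, p.2 i)) :=
      ((continuous_apply i).comp continuous_fst).prodMk ((continuous_apply i).comp continuous_snd)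
    have h2 : Continuous (fun v : ℕ × ℕ => v.1 ^^^ e v.2) := continuous_of_discreteTopology
    exact h2.comp h1
  exact hc.measurable

theorem measurable_jn : Measurable (fun p : (ℕ → ℕ) × (ℕ → ℕ) => jn p.1 p.2) := by
  have hc : Continuous (fun p : (ℕ → ℕ) × (ℕ → ℕ) => jn p.1 p.2) := by
    refine continuous_pi fun i => ?_
    have h1 : Continuous (fun p : (ℕ → ℕ) × (ℕ → ℕ) => (p.1 i, p.2 i)) :=
      ((continuous_apply i).comp continuous_fst).prodMk ((continuous_apply i).comp continuous_snd)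
    have h2 : Continuous (fun v : ℕ × ℕ => Nat.pair v.1 v.2) := continuous_of_discreteTopology
    exact h2.comp h1
  exact hc.measurable

theorem zero_le (w : ℕ → ℕ) : LE (fun _ => 0) w :=
  le_iff.2 (rt_prim (Primrec.nat_iff.1 (Primrec.const 0)))

/-- continuity at pairs, for every `g` -/
theorem cont_pair (hKK : ST_KK) {A : Set ℕ} {F : (ℕ → ℕ) → (ℕ → ℕ)} {π : (ℕ → ℕ) → (ℕ → ℕ)}
    {G : Set (ℕ → ℕ)} (hr : Rep π F G) {e : ℕ → ℕ} (he : range e = A) {k1 g1 : ℕ → ℕ}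
    (h : (k1, xr k1 (e ∘ g1)) ∈ KK A G) (n : ℕ) : ∃ m, ∀ k' g' : ℕ → ℕ, k' ∈ Cy k1 m →
      g' ∈ Cy g1 m → (k', xr k' (e ∘ g')) ∈ KK A G →
      jn (F k') (F (xr k' (e ∘ g'))) ∈ Cy (jn (F k1) (F (xr k1 (e ∘ g1)))) n := by
  obtain ⟨-, -, h3, -⟩ := hKK A F π G hr e he
  obtain ⟨g, hg, m, hm⟩ := h3 _ _ h n
  refine ⟨m, fun k' g' hk' hg' hK => ?_⟩
  have hx : ∀ i, e (g i) = e (g1 i) := by
    intro i
    have h4 : k1 i ^^^ e (g1 i) = k1 i ^^^ e (g i) := congrFun hg i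
    exact (Nat.xor_right_inj.1 h4).symm
  have e1 : e ∘ pre g m g' = e ∘ g' := by
    funext i
    change e (if i < m then g i else g' i) = e (g' i)
    by_cases hi : i < m
    · rw [if_pos hi, hx i, hg' i hi]
    · rw [if_neg hi]
  have h5 := hm k' (pre g m g') hk' (fun i hi => by
    change (if i < m then g i else g' i) = g i
    rw [if_pos hi])
  rw [e1] at h5
  exact h5 hK

theorem st_D1 (hEN : ST_ENUM) (hU : ST_UNI2)
    (hB : ST_BORSW) (hT : ST_TREE) (hKK : ST_KK) (hZ : ST_ZIP) (hUN : ST_UN) (hS : ST_SUB)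
    (hR : ST_RES) : ST_D1 := by
  intro π F G hπ hr A z hA hAz y hy n
  obtain ⟨e, hez, he⟩ := hEN A z hA hAz
  obtain ⟨⟨k1, k2⟩, hk, rfl⟩ := hy
  obtain ⟨g1, hk2, m, hm⟩ := (hKK A F π G hr e he).2.2.1 k1 k2 hk n
  -- generic pairs
  have hgen1 := (hKK A F π G hr e he).1
  have hgF : ∀ᶠ p in residual ((ℕ → ℕ) × (ℕ → ℕ)), p.2 ∈ G :=
    (hR.2.2.2.2.2.2.1).eventually hr.res
  have hcode : ∀ᶠ p in residual ((ℕ → ℕ) × (ℕ → ℕ)), ∃ c : Code,
      segs (jn (F p.1) (F (xr p.1 (e ∘ p.2)))) = WC c (jn (jn (F p.1) (F p.2)) (π z)) := by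
    filter_upwards [hgen1, hgF] with p hp hg
    have h1 : LE (F (xr p.1 (e ∘ p.2))) (jn (jn (F p.1) (F p.2)) (π z)) := by
      refine (hr.te _ hp.2.1).1.trans ?_
      have h2 : LE (xr p.1 (e ∘ p.2)) (jn (jn p.1 p.2) z) := by
        refine (xr_le _ _).trans (jn_le ((le_jn_left _ _).trans (le_jn_left _ _)) ?_)
        exact comp_le (hez.trans (le_jn_right _ _)) ((le_jn_right _ _).trans (le_jn_left _ _))
      refine ((hπ.iff _ _).1 h2).trans ((piJoin hπ _ _).trans (jn_mono ?_ (LE.refl _)))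
      exact (piJoin hπ _ _).trans (jn_mono (hr.te _ hp.1).2 (hr.te _ hg).2)
    have h3 : LE (jn (F p.1) (F (xr p.1 (e ∘ p.2)))) (jn (jn (F p.1) (F p.2)) (π z)) :=
      jn_le ((le_jn_left _ _).trans (le_jn_left _ _)) h1
    exact ceIn_iff.1 (le_iff_segs.1 h3)
  have hmeas : ∀ c : Code, MeasurableSet {p : (ℕ → ℕ) × (ℕ → ℕ) |
      segs (jn (F p.1) (F (xr p.1 (e ∘ p.2)))) = WC c (jn (jn (F p.1) (F p.2)) (π z))} := by
    intro c
    have h1 : Measurable (fun p : (ℕ → ℕ) × (ℕ → ℕ) =>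
        (jn (F p.1) (F (xr p.1 (e ∘ p.2))), jn (jn (F p.1) (F p.2)) (π z))) := by
      refine Measurable.prodMk ?_ ?_
      · exact measurable_jn.comp ((hr.meas.comp measurable_fst).prodMk
          (hr.meas.comp (measurable_xr e)))
      · exact measurable_jn.comp ((measurable_jn.comp ((hr.meas.comp measurable_fst).prodMk
          (hr.meas.comp measurable_snd))).prodMk measurable_const)
    exact h1 (hB c)
  obtain ⟨c, f', g', n', hmn', hf', hg', hc⟩ := hU Code _ hmeas hcode k1 g1 m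
  obtain ⟨u, a, hna, hu, hTu⟩ := hT π F G hπ hr f' n'
  obtain ⟨v, b, hnb, hv, hTv⟩ := hT π F G hπ hr g' n'
  -- the residual set
  set R : Set ((ℕ → ℕ) × (ℕ → ℕ)) := {p | (p.1, xr p.1 (e ∘ p.2)) ∈ KK A G ∧ p.2 ∈ G ∧
    (p.1 ∈ Cy f' n' → p.2 ∈ Cy g' n' →
      segs (jn (F p.1) (F (xr p.1 (e ∘ p.2)))) = WC c (jn (jn (F p.1) (F p.2)) (π z)))}
    with hRdef
  have hRres : R ∈ residual ((ℕ → ℕ) × (ℕ → ℕ)) := by
    filter_upwards [hgen1, hgF, hc] with p h1 h2 h3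
    exact ⟨h1, h2, h3⟩
  -- the elements of the box
  set J' : Set (ℕ → ℕ) := {x | ∃ k g, (k, g) ∈ R ∧ k ∈ Cy u a ∧ g ∈ Cy v b ∧
    x = jn (F k) (F (xr k (e ∘ g)))} with hJ'
  have hbox : ∀ k g, (k, g) ∈ R → k ∈ Cy u a → g ∈ Cy v b →
      segs (jn (F k) (F (xr k (e ∘ g)))) = WC c (jn (jn (F k) (F g)) (π z)) := by
    intro k g h1 h2 h3
    exact h1.2.2 (Cy_trans hna h2 hu) (Cy_trans hnb h3 hv)
  obtain ⟨k0, g0, h0, hk0, hg0⟩ := pick2 hRres u v a b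
  set y0 : ℕ → ℕ := jn (F k0) (F (xr k0 (e ∘ g0))) with hy0
  have hE : CEIn (SS J' y0 0) (π z) := by
    have h1 := hUN c _ (π z) (π z) ((hZ _ _ _ hTu hTv).mono (zero_le (π z))) (LE.refl _)
    refine (congrArg (fun S => CEIn S (π z)) ?_).mp h1
    ext q
    constructor
    · rintro ⟨p, ⟨p1, q1, hp1, hq1, hlen, hp⟩, s, hs, hq⟩
      obtain ⟨k3, ⟨hk3G, hk3⟩, s3, hs3⟩ := hp1
      obtain ⟨g3, ⟨hg3G, hg3⟩, t3, ht3⟩ := hq1
      have e1 : p1 = ini (F k3) s3 := by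
        have := congrArg dl hs3
        rwa [dl_ec, dl_ec] at this
      have e2 : q1 = ini (F g3) t3 := by
        have := congrArg dl ht3
        rwa [dl_ec, dl_ec] at this
      have e3 : p = zp p1 q1 p1.length := by
        have := congrArg dl hp
        rwa [dl_ec, dl_ec] at this
      have e4 : s3 = t3 := by
        rw [e1, e2, ini_length, ini_length] at hlen
        exact hlen
      subst e4
      have e5 : p = ini (jn (F k3) (F g3)) s3 := by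
        rw [e3, e1, e2, ini_length, ini_jn _ _ _ _ _ le_rfl le_rfl]
      obtain ⟨m1, hm1⟩ := hr.cont k3 hk3G s3
      obtain ⟨m2, hm2⟩ := hr.cont g3 hg3G s3
      obtain ⟨k', g', h4, h5, h6⟩ := pick2 hRres k3 g3 (max a m1) (max b m2)
      have hk'u : k' ∈ Cy u a := Cy_trans (le_max_left _ _) h5 hk3
      have hg'v : g' ∈ Cy v b := Cy_trans (le_max_left _ _) h6 hg3
      have h7 : F k' ∈ Cy (F k3) s3 := hm1 k' h4.1.1 (Cy_mono (le_max_right _ _) h5)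
      have h8 : F g' ∈ Cy (F g3) s3 := hm2 g' h4.2.1 (Cy_mono (le_max_right _ _) h6)
      refine ⟨jn (F k') (F (xr k' (e ∘ g'))), ⟨k', g', h4, hk'u, hg'v, rfl⟩,
        fun i hi => absurd hi (Nat.not_lt_zero i), ?_⟩
      rw [hbox k' g' h4 hk'u hg'v]
      refine ⟨s, ?_⟩
      have e6 : ini (jn (jn (F k') (F g')) (π z)) s = zp p (ini (π z) s) s := by
        rw [e5, ← ini_of_Cy (jn_Cy h7 h8), ini_jn _ _ _ _ _ ?_ le_rfl]
        rw [e5, ini_length] at hs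
        exact hs
      rw [e6]
      exact hq
    · rintro ⟨x, ⟨k', g', h4, h5, h6, rfl⟩, -, hq⟩
      rw [hbox k' g' h4 h5 h6] at hq
      obtain ⟨s, hs⟩ := hq
      refine ⟨ini (jn (F k') (F g')) s, ⟨ini (F k') s, ini (F g') s,
        ⟨k', ⟨h4.1.1, h5⟩, s, rfl⟩, ⟨g', ⟨h4.2.1, h6⟩, s, rfl⟩, ?_, ?_⟩, s, ?_, ?_⟩
      · rw [ini_length, ini_length]
      · rw [ini_length, ini_jn _ _ _ _ _ le_rfl le_rfl]
      · rw [ini_length]
      · rw [ini_jn _ _ _ _ _ le_rfl le_rfl]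
        exact hs
  -- the answer
  have hKK4 := (hKK A F π G hr e he).2.2.2 k0 g0 h0.1 (max a b)
  obtain ⟨m', hm'⟩ := hKK4
  refine ⟨y0, ⟨(k0, xr k0 (e ∘ g0)), h0.1, rfl⟩, max n m', le_max_left _ _, ?_, ?_⟩
  · exact hm k0 g0 (Cy_trans hmn' (Cy_trans hna hk0 hu) hf')
      (Cy_trans hmn' (Cy_trans hnb hg0 hv) hg') h0.1
  · have h1 := hS J' y0 y0 0 (max n m') (π z) (Nat.zero_le _) (Cy_self _ _) hE
    refine (congrArg (fun S => CEIn S (π z)) ?_).mp h1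
    ext q
    constructor
    · rintro ⟨x, ⟨k', g', h4, h5, h6, rfl⟩, h7, h8⟩
      exact ⟨_, ⟨(k', xr k' (e ∘ g')), h4.1, rfl⟩, h7, h8⟩
    · rintro ⟨x, ⟨⟨k3, k4⟩, h4, rfl⟩, h7, s, hs⟩
      obtain ⟨g3, hg3, hk3, h5⟩ := hm' k3 k4 h4 (Cy_mono (le_max_right _ _) h7)
      subst h5
      obtain ⟨m1, hm1⟩ := cont_pair hKK hr he h4 (max s (max n m'))
      obtain ⟨k', g', h9, h10, h11⟩ := pick2 hRres k3 g3 (max m1 (max a b)) (max m1 (max a b))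
      have h12 : jn (F k') (F (xr k' (e ∘ g'))) ∈
          Cy (jn (F k3) (F (xr k3 (e ∘ g3)))) (max s (max n m')) :=
        hm1 k' g' (Cy_mono (le_max_left _ _) h10) (Cy_mono (le_max_left _ _) h11) h9.1
      have h13 : k' ∈ Cy k0 (max a b) := Cy_trans le_rfl (Cy_mono (le_max_right _ _) h10) hk3
      have h14 : g' ∈ Cy g0 (max a b) := Cy_trans le_rfl (Cy_mono (le_max_right _ _) h11) hg3
      refine ⟨_, ⟨k', g', h9, Cy_trans (le_max_left _ _) h13 hk0,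
        Cy_trans (le_max_right _ _) h14 hg0, rfl⟩, ?_, ?_⟩
      · exact Cy_trans le_rfl (Cy_mono (le_max_right _ _) h12) h7
      · exact mem_segs_of_Cy (Cy_mono (le_max_left _ _) h12) hs

end Pool.Agent.Helper59.MWF
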